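import Pool.Agent.Y387.SB.Main

/-!
Numbers of vertices on spheres, for the tree in which every node has two children and for trees
which branch quickly.
-/

set_option autoImplicit false

namespace Pool.Agent.Y387.SB

open Vtx
open scoped ENNReal

universe u

variable {D : ℕ → ℕ}

lemma lvl_eq_finite (n : ℕ) (p : Vtx D → Prop) : {v : Vtx D | lvl v = n ∧ p v}.Finite :=
  (lvl_finite n).subset (fun v hv => le_of_eq hv.1)

lemma bad_ncard {C : Type u} (c : Vtx D → C) (b : C) (d : ℕ) :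
    {i : Node D d | Bad c b d i}.ncard ≤ {v : Vtx D | lvl v = 2 * d + 1 ∧ c v ≠ b}.ncard +
      {v : Vtx D | lvl v = 2 * d + 2 ∧ c v ≠ b}.ncard := by
  classical
  have h1 : {i : Node D d | ∃ x, c (P d i x) ≠ b}.ncard ≤
      {v : Vtx D | lvl v = 2 * d + 1 ∧ c v ≠ b}.ncard := by
    refine Set.ncard_le_ncard_of_injOn
      (fun i => if h : ∃ x, c (P d i x) ≠ b then P d i h.choose else root) ?_ ?_
      (lvl_eq_finite _ _)
    · intro i hi
      have hi' : ∃ x, c (P d i x) ≠ b := hi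
      simp only [dif_pos hi']
      exact ⟨rfl, hi'.choose_spec⟩
    · intro i hi j hj hij
      have hi' : ∃ x, c (P d i x) ≠ b := hi
      have hj' : ∃ x, c (P d j x) ≠ b := hj
      simp only [dif_pos hi', dif_pos hj'] at hij
      injection hij
  have h2 : {i : Node D d | ∃ ξ, c (Q d i ξ) ≠ b}.ncard ≤
      {v : Vtx D | lvl v = 2 * d + 2 ∧ c v ≠ b}.ncard := by
    refine Set.ncard_le_ncard_of_injOn
      (fun i => if h : ∃ ξ, c (Q d i ξ) ≠ b then Q d i h.choose else root) ?_ ?_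
      (lvl_eq_finite _ _)
    · intro i hi
      have hi' : ∃ ξ, c (Q d i ξ) ≠ b := hi
      simp only [dif_pos hi']
      exact ⟨rfl, hi'.choose_spec⟩
    · intro i hi j hj hij
      have hi' : ∃ x, c (Q d i x) ≠ b := hi
      have hj' : ∃ x, c (Q d j x) ≠ b := hj
      simp only [dif_pos hi', dif_pos hj'] at hij
      injection hij
  refine le_trans ?_ (add_le_add h1 h2)
  exact Set.ncard_union_le _ _

lemma ind_sum {C : Type u} (c : Vtx D → C) (b : C) (d : ℕ) :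
    ∑ i, ind c b d i = ({i : Node D d | Bad c b d i}.ncard : ℝ≥0∞) := by
  classical
  unfold ind
  rw [Finset.sum_boole, Set.ncard_eq_toFinset_card']
  congr 2
  ext i
  simp

lemma avg_le {C : Type u} (c : Vtx D → C) (b : C) (d : ℕ) :
    avg (ind c b) d ≤ (({v : Vtx D | lvl v = 2 * d + 1 ∧ c v ≠ b}.ncard : ℝ≥0∞) +
      ({v : Vtx D | lvl v = 2 * d + 2 ∧ c v ≠ b}.ncard : ℝ≥0∞)) / (num D d : ℝ≥0∞) := by
  unfold avg
  rw [ind_sum]
  gcongr
  exact_mod_cast bad_ncard c b d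

lemma avg_ne_top (hD : ∀ d, 2 ≤ D d) {C : Type u} (c : Vtx D → C) (b : C) (d : ℕ) :
    avg (ind c b) d ≠ ∞ := by
  unfold avg
  rw [ind_sum]
  have h0 : (num D d : ℝ≥0∞) ≠ 0 := by
    have := num_ge hD d
    have : 0 < 2 ^ d := by positivity
    exact_mod_cast (by omega : num D d ≠ 0)
  exact ENNReal.div_ne_top (ENNReal.natCast_ne_top _) h0

/-! ### Quick branching -/

/-- the branching numbers used for the bound `f` -/
def branch (f : ℕ → ℕ) (d : ℕ) : ℕ := f (2 * d + 3) + f (2 * d + 4) + 2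

lemma branch_ge (f : ℕ → ℕ) (d : ℕ) : 2 ≤ branch f d := by unfold branch; omega

theorem quick (f : ℕ → ℕ) {C : Type u} (c : Vtx (branch f) → C) (b : C)
    (hc : {r : ℕ | f r < {v | lvl v = r ∧ c v ≠ b}.ncard}.Finite) :
    ∃ σ : G (branch f) ≃g G (branch f), (∀ v, c (σ v) = c v) ∧ ∃ v, σ v ≠ v := by
  apply main (branch_ge f) c b
  obtain ⟨R, hR⟩ := hc.bddAbove
  have hred : ∀ r, R < r → {v | lvl v = r ∧ c v ≠ b}.ncard ≤ f r := by
    intro r hr
    by_contra hlt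
    push Not at hlt
    have := hR (show r ∈ {r : ℕ | f r < {v | lvl v = r ∧ c v ≠ b}.ncard} from hlt)
    omega
  have hle : ∀ e, R ≤ e → avg (ind c b) (e + 1) ≤ 2⁻¹ ^ e := by
    intro e he
    refine (avg_le c b (e + 1)).trans ?_
    have h1 := hred (2 * (e + 1) + 1) (by omega)
    have h2 := hred (2 * (e + 1) + 2) (by omega)
    have h3 : 2 ^ e * ({v : Vtx (branch f) | lvl v = 2 * (e + 1) + 1 ∧ c v ≠ b}.ncard +
        {v : Vtx (branch f) | lvl v = 2 * (e + 1) + 2 ∧ c v ≠ b}.ncard) ≤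
        num (branch f) (e + 1) := by
      have h4 : num (branch f) (e + 1) = num (branch f) e * branch f e := rfl
      rw [h4]
      apply Nat.mul_le_mul (num_ge (branch_ge f) e)
      have h5 : branch f e = f (2 * e + 3) + f (2 * e + 4) + 2 := rfl
      rw [h5]
      have e1 : 2 * (e + 1) + 1 = 2 * e + 3 := by ring
      have e2 : 2 * (e + 1) + 2 = 2 * e + 4 := by ring
      rw [e1] at h1 ⊢
      rw [e2] at h2 ⊢
      omega
    apply ENNReal.div_le_of_le_mul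
    rw [← ENNReal.inv_pow]
    have h6 : (2 : ℝ≥0∞) ^ e * (({v : Vtx (branch f) | lvl v = 2 * (e + 1) + 1 ∧ c v ≠ b}.ncard :
        ℝ≥0∞) + ({v : Vtx (branch f) | lvl v = 2 * (e + 1) + 2 ∧ c v ≠ b}.ncard : ℝ≥0∞)) ≤
        (num (branch f) (e + 1) : ℝ≥0∞) := by exact_mod_cast h3
    refine le_trans (le_of_eq ?_) (mul_le_mul_right h6 (2 ^ e)⁻¹)
    rw [← mul_assoc, ENNReal.inv_mul_cancel (by positivity) (ENNReal.pow_ne_top (by norm_num)),
      one_mul]
  rw [← Summable.sum_add_tsum_nat_add' (k := R + 1) ENNReal.summable]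
  apply ENNReal.add_ne_top.2
  refine ⟨?_, ?_⟩
  · rw [ENNReal.sum_ne_top]
    intro d _
    exact avg_ne_top (branch_ge f) c b d
  · refine ne_top_of_le_ne_top (b := ∑' n : ℕ, (2⁻¹ : ℝ≥0∞) ^ n) ?_ (ENNReal.tsum_le_tsum ?_)
    · rw [ENNReal.tsum_geometric]
      simp
    · intro n
      refine (hle (n + R) (by omega)).trans ?_
      rw [pow_add]
      have h5 : (2⁻¹ : ℝ≥0∞) ^ R ≤ 1 := pow_le_one₀ (by simp) (by simp)
      calc (2⁻¹ : ℝ≥0∞) ^ n * 2⁻¹ ^ R ≤ 2⁻¹ ^ n * 1 := by gcongr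
        _ = _ := mul_one _

/-! ### Two children -/

/-- every node has two children -/
abbrev two : ℕ → ℕ := fun _ => 2

lemma two_ge (d : ℕ) : 2 ≤ two d := le_rfl

lemma num_two (d : ℕ) : num two d = 2 ^ d := by
  induction d with
  | zero => rfl
  | succ d ih => rw [pow_succ, ← ih]; rfl

/-- weights of the spheres -/
noncomputable def wt (r : ℕ) : ℝ≥0∞ := (2 ^ (r / 2))⁻¹

lemma avg_two_le {C : Type u} (c : Vtx two → C) (b : C) :
    ∑' d, avg (ind c b) d ≤ 3 * ∑' r, ({v : Vtx two | lvl v = r ∧ c v ≠ b}.ncard : ℝ≥0∞) * wt r := by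
  set nb : ℕ → ℝ≥0∞ := fun r => ({v : Vtx two | lvl v = r ∧ c v ≠ b}.ncard : ℝ≥0∞) with hnb
  have h1 : ∀ d, avg (ind c b) d ≤
      nb (2 * d + 1) * wt (2 * d + 1) + 2 * (nb (2 * d + 2) * wt (2 * d + 2)) := by
    intro d
    refine (avg_le c b d).trans (le_of_eq ?_)
    have e1 : (2 * d + 1) / 2 = d := by omega
    have e2 : (2 * d + 2) / 2 = d + 1 := by omega
    rw [wt, wt, e1, e2, num_two, div_eq_mul_inv, add_mul]
    push_cast
    congr 1
    rw [pow_succ, ENNReal.mul_inv (Or.inr (by norm_num)) (Or.inr (by norm_num))]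
    have h2 : (2 : ℝ≥0∞) * 2⁻¹ = 1 := ENNReal.mul_inv_cancel (by norm_num) (by norm_num)
    calc nb (2 * d + 2) * (2 ^ d)⁻¹ = nb (2 * d + 2) * (2 ^ d)⁻¹ * (2 * 2⁻¹) := by
          rw [h2, mul_one]
      _ = _ := by ring
  have h2 : ∑' d, nb (2 * d + 1) * wt (2 * d + 1) ≤ ∑' r, nb r * wt r :=
    ENNReal.tsum_comp_le_tsum_of_injective (f := fun d : ℕ => 2 * d + 1)
      (fun a b h => by simpa using h) (fun r => nb r * wt r)
  have h3 : ∑' d, nb (2 * d + 2) * wt (2 * d + 2) ≤ ∑' r, nb r * wt r :=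
    ENNReal.tsum_comp_le_tsum_of_injective (f := fun d : ℕ => 2 * d + 2)
      (fun a b h => by simpa using h) (fun r => nb r * wt r)
  calc ∑' d, avg (ind c b) d ≤
      ∑' d, (nb (2 * d + 1) * wt (2 * d + 1) + 2 * (nb (2 * d + 2) * wt (2 * d + 2))) :=
        ENNReal.tsum_le_tsum h1
    _ = ∑' d, nb (2 * d + 1) * wt (2 * d + 1) + 2 * ∑' d, nb (2 * d + 2) * wt (2 * d + 2) := by
        rw [ENNReal.tsum_add, ENNReal.tsum_mul_left]
    _ ≤ ∑' r, nb r * wt r + 2 * ∑' r, nb r * wt r := by gcongr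
    _ = _ := by ring

lemma fib {V : Type} (f : V → ℕ) (g : ℕ → ℝ≥0∞) (S : Set V)
    (hfin : ∀ r, {v | f v = r ∧ v ∈ S}.Finite) :
    ∑' r, ({v | f v = r ∧ v ∈ S}.ncard : ℝ≥0∞) * g r =
      ∑' v, S.indicator (fun v => g (f v)) v := by
  classical
  have h1 : ∀ r, ({v | f v = r ∧ v ∈ S}.ncard : ℝ≥0∞) * g r =
      ∑' v, {v | f v = r ∧ v ∈ S}.indicator (fun _ => g r) v := by
    intro r
    have h2 : (({v | f v = r ∧ v ∈ S}.ncard : ℕ) : ℝ≥0∞) =
        ∑' _ : {v | f v = r ∧ v ∈ S}, (1 : ℝ≥0∞) := by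
      rw [ENNReal.tsum_set_one, ← (hfin r).cast_ncard_eq]
      rfl
    rw [h2, ← ENNReal.tsum_mul_right, ← tsum_subtype]
    simp
  simp only [h1]
  rw [ENNReal.tsum_comm]
  apply tsum_congr
  intro v
  rw [tsum_eq_single (f v)]
  · by_cases h : v ∈ S
    · simp [h]
    · simp [h]
  · intro r hr
    apply Set.indicator_of_notMem
    intro h
    exact hr h.1.symm

section Dist

variable (v₀ : Vtx two)

lemma dist_le (v : Vtx D) (v₀ : Vtx D) : (G D).dist v₀ v ≤ lvl v + lvl v₀ := by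
  have h := (connected (D := D)).dist_triangle (u := v₀) (v := root) (w := v)
  have h' := dist_root v₀
  rw [SimpleGraph.dist_comm] at h'
  rw [dist_root, h'] at h
  omega

lemma lvl_le (v : Vtx D) (v₀ : Vtx D) : lvl v ≤ (G D).dist v₀ v + lvl v₀ := by
  have h := (connected (D := D)).dist_triangle (u := root) (v := v₀) (w := v)
  rw [dist_root, dist_root] at h
  omega

lemma dist_finite (r : ℕ) (p : Vtx D → Prop) (v₀ : Vtx D) :
    {v : Vtx D | (G D).dist v₀ v = r ∧ p v}.Finite := by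
  refine (lvl_finite (r + lvl v₀)).subset (fun v hv => ?_)
  have := lvl_le v v₀
  rw [hv.1] at this
  exact this

lemma wt_le (r s k : ℕ) (h : r ≤ s + k) : wt s ≤ 2 ^ k * wt r := by
  unfold wt
  have h1 : r / 2 ≤ s / 2 + k := by omega
  have h2 : (2 : ℝ≥0∞) ^ (r / 2) ≤ 2 ^ k * 2 ^ (s / 2) := by
    rw [← pow_add]
    exact pow_le_pow_right₀ (by norm_num) (by omega)
  rw [← div_eq_mul_inv, ENNReal.le_div_iff_mul_le (Or.inl (by positivity))
    (Or.inl (ENNReal.pow_ne_top (by norm_num)))]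
  calc ((2 : ℝ≥0∞) ^ (s / 2))⁻¹ * 2 ^ (r / 2) ≤ (2 ^ (s / 2))⁻¹ * (2 ^ k * 2 ^ (s / 2)) := by
        gcongr
    _ = 2 ^ k * (2 ^ (s / 2) * (2 ^ (s / 2))⁻¹) := by ring
    _ = 2 ^ k := by
        rw [ENNReal.mul_inv_cancel (by positivity) (ENNReal.pow_ne_top (by norm_num)), mul_one]

theorem weights {C : Type u} (c : Vtx two → C) (b : C)
    (hc : ∀ σ : G two ≃g G two, (∀ v, c (σ v) = c v) → ∀ v, σ v = v) :
    ∑' r, ({v : Vtx two | (G two).dist v₀ v = r ∧ c v ≠ b}.ncard : ℝ≥0∞) * wt r = ∞ := by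
  by_contra hne
  have h1 : ∑' r, ({v : Vtx two | lvl v = r ∧ c v ≠ b}.ncard : ℝ≥0∞) * wt r ≤
      2 ^ (lvl v₀) *
      ∑' r, ({v : Vtx two | (G two).dist v₀ v = r ∧ c v ≠ b}.ncard : ℝ≥0∞) * wt r := by
    have e1 := fib (fun v : Vtx two => lvl v) wt {v | c v ≠ b} (fun r => lvl_eq_finite r _)
    have e2 := fib (fun v : Vtx two => (G two).dist v₀ v) wt {v | c v ≠ b}
      (fun r => dist_finite r _ v₀)
    simp only [Set.mem_ofPred_eq] at e1 e2
    rw [e1, e2, ← ENNReal.tsum_mul_left]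
    apply ENNReal.tsum_le_tsum
    intro v
    by_cases h : c v ≠ b
    · rw [Set.indicator_of_mem (by exact h), Set.indicator_of_mem (by exact h)]
      exact wt_le _ _ _ (dist_le v v₀)
    · rw [Set.indicator_of_notMem (by exact h)]
      exact zero_le
  have h2 : ∑' d, avg (ind c b) d ≠ ∞ := by
    refine ne_top_of_le_ne_top ?_ ((avg_two_le c b).trans (mul_le_mul_right h1 3))
    exact ENNReal.mul_ne_top (by norm_num)
      (ENNReal.mul_ne_top (ENNReal.pow_ne_top (by norm_num)) hne)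
  obtain ⟨σ, h3, v, hv⟩ := main two_ge c b h2
  exact hv (hc σ h3 v)

end Dist

end Pool.Agent.Y387.SB
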