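import Pool.Agent.Y387.SB.Count

/-!
Degrees and spheres of the graph of the binary tree.
-/

set_option autoImplicit false

namespace Pool.Agent.Y387.SB

open Vtx
open scoped ENNReal

universe u

lemma encard_image_zmod {V : Type} (f : ZMod 2 → V) : (f '' Set.univ).encard ≤ 2 := by
  refine (Set.encard_image_le f Set.univ).trans ?_
  rw [Set.encard_univ]
  simp

theorem deg_le (v : Vtx two) : ((G two).neighborSet v).encard ≤ 4 := by
  match v with
  | root =>
    have h : (G two).neighborSet root ⊆ (fun x : ZMod 2 => (P 0 () x : Vtx two)) '' Set.univ := by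
      intro w hw
      rcases (show Up two root w ∨ Up two w root from hw) with h | h
      · cases h with
        | rootP x => exact ⟨x, trivial, rfl⟩
      · have := h.lvl_eq
        simp [lvl] at this
    exact (Set.encard_le_encard h).trans ((encard_image_zmod _).trans (by norm_num))
  | P d i x =>
    have h : (G two).neighborSet (P d i x) ⊆
        ((fun y : ZMod 2 => (Q d i ![y, x - y] : Vtx two)) '' Set.univ) ∪
        ({w | Up two w (P d i x)}) := by
      intro w hw
      rcases (show Up two (P d i x) w ∨ Up two w (P d i x) from hw) with h | h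
      · left
        generalize hu : (P d i x : Vtx two) = u at h
        cases h with
        | rootP x' => cases hu
        | QP d' i' ξ j => cases hu
        | PQ d' i' ξ =>
          injection hu with h1 h2 h3
          subst h1
          have h2' : i = i' := eq_of_heq h2
          subst h2'
          refine ⟨ξ 0, trivial, ?_⟩
          have h4 : (![ξ 0, x - ξ 0] : Fin 2 → ZMod 2) = ξ := by
            funext j
            have h5 : x = ξ 0 + ξ 1 := by
              rw [h3]; exact Fin.sum_univ_two ξ
            fin_cases j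
            · rfl
            · show x - ξ 0 = ξ 1
              rw [h5]; ring
          show (Q d i ![ξ 0, x - ξ 0] : Vtx two) = Q d i ξ
          rw [h4]
      · right; exact h
    have h2 : ({w | Up two w (P d i x)}).encard ≤ 2 := by
      match d, i with
      | 0, i =>
        have h3 : ({w | Up two w (P 0 i x)}) ⊆ {root} := by
          intro w hw
          have h5 : 2 * 0 + 1 = lvl w + 1 := (show Up two w (P 0 i x) from hw).lvl_eq
          have h6 : lvl w = 0 := by omega
          exact lvl_eq_zero h6
        refine (Set.encard_le_encard h3).trans ?_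
        rw [Set.encard_singleton]
        norm_num
      | d + 1, (i, j) =>
        have h3 : ({w | Up two w (P (d + 1) (i, j) x)}) ⊆
            (fun y : ZMod 2 => (Q d i (Function.update (fun _ => y) j x) : Vtx two)) ''
              Set.univ := by
          intro w hw
          have hw' : Up two w (P (d + 1) (i, j) x) := hw
          generalize hu : (P (d + 1) (i, j) x : Vtx two) = u at hw'
          cases hw' with
          | rootP x' => cases hu
          | PQ d' i' ξ => cases hu
          | QP d' i' ξ j' =>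
            injection hu with h1 h2 h3
            have h1' : d = d' := by omega
            subst h1'
            have h4 : i = i' := congrArg Prod.fst (eq_of_heq h2)
            have h5 : j = j' := congrArg Prod.snd (eq_of_heq h2)
            subst h4 h5
            refine ⟨ξ (j + 1), trivial, ?_⟩
            have h6 : Function.update (fun _ => ξ (j + 1)) j x = ξ := by
              funext l
              by_cases hl : l = j
              · subst hl
                rw [Function.update_self]
                exact h3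
              · rw [Function.update_of_ne hl]
                have : l = j + 1 := by
                  clear h3
                  revert hl
                  change Fin 2 at l j
                  fin_cases l <;> fin_cases j <;> simp
                rw [this]
            show (Q d i (Function.update (fun _ => ξ (j + 1)) j x) : Vtx two) = Q d i ξ
            rw [h6]
        exact (Set.encard_le_encard h3).trans (encard_image_zmod _)
    refine (Set.encard_le_encard h).trans ((Set.encard_union_le _ _).trans ?_)
    calc _ ≤ (2 : ℕ∞) + 2 := add_le_add (encard_image_zmod _) h2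
      _ = 4 := by norm_num
  | Q d i ξ =>
    have h : (G two).neighborSet (Q d i ξ) ⊆ {P (d + 1) (i, 0) (ξ 0), P (d + 1) (i, 1) (ξ 1),
        P d i (∑ j, ξ j)} := by
      intro w hw
      rcases (show Up two (Q d i ξ) w ∨ Up two w (Q d i ξ) from hw) with h | h
      · cases h with
        | QP _ _ _ j =>
          change Fin 2 at j
          fin_cases j
          · left; rfl
          · right; left; rfl
      · cases h with
        | PQ _ _ _ => right; right; rfl
    refine (Set.encard_le_encard h).trans ?_
    refine (Set.encard_insert_le _ _).trans ?_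
    refine (add_le_add (Set.encard_insert_le _ _) le_rfl).trans ?_
    rw [Set.encard_singleton]
    norm_num

lemma level_ncard (s : ℕ) : {v : Vtx two | lvl v = s}.ncard ≤ 2 * 2 ^ (s / 2) := by
  rcases Nat.even_or_odd' s with ⟨m, rfl | rfl⟩
  · rcases m with _ | d
    · have h : {v : Vtx two | lvl v = 2 * 0} ⊆ {root} := fun v hv => lvl_eq_zero hv
      refine (Set.ncard_le_ncard h (Set.finite_singleton _)).trans ?_
      rw [Set.ncard_singleton]
      norm_num
    · have h : {v : Vtx two | lvl v = 2 * (d + 1)} ⊆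
          (fun p : Node two d × (Fin 2 → ZMod 2) => (Q d p.1 p.2 : Vtx two)) '' Set.univ := by
        intro v hv
        match v with
        | root => simp [lvl] at hv
        | P d' i x =>
          have hv' : 2 * d' + 1 = 2 * (d + 1) := hv
          omega
        | Q d' i ξ =>
          have hv' : 2 * d' + 2 = 2 * (d + 1) := hv
          have : d' = d := by omega
          subst this
          exact ⟨(i, ξ), trivial, rfl⟩
      refine (Set.ncard_le_ncard h (Set.toFinite _)).trans ?_
      refine (Set.ncard_image_le Set.finite_univ).trans ?_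
      rw [Set.ncard_univ, Nat.card_prod, Nat.card_eq_fintype_card, card_node, num_two]
      have e1 : Nat.card (Fin 2 → ZMod 2) = 4 := by
        rw [Nat.card_eq_fintype_card]; rfl
      have e2 : 2 * (d + 1) / 2 = d + 1 := by omega
      rw [e1, e2, pow_succ]
      omega
  · have h : {v : Vtx two | lvl v = 2 * m + 1} ⊆
        (fun p : Node two m × ZMod 2 => (P m p.1 p.2 : Vtx two)) '' Set.univ := by
      intro v hv
      match v with
      | root => simp [lvl] at hv
      | P d' i x =>
        have hv' : 2 * d' + 1 = 2 * m + 1 := hv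
        have : d' = m := by omega
        subst this
        exact ⟨(i, x), trivial, rfl⟩
      | Q d' i ξ =>
        have hv' : 2 * d' + 2 = 2 * m + 1 := hv
        omega
    refine (Set.ncard_le_ncard h (Set.toFinite _)).trans ?_
    refine (Set.ncard_image_le Set.finite_univ).trans ?_
    rw [Set.ncard_univ, Nat.card_prod, Nat.card_eq_fintype_card, card_node, num_two]
    have e1 : Nat.card (ZMod 2) = 2 := by simp
    have e2 : (2 * m + 1) / 2 = m := by omega
    rw [e1, e2]
    omega

lemma ball_ncard (n : ℕ) : {v : Vtx two | lvl v ≤ n}.ncard ≤ 8 * 2 ^ (n / 2) := by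
  have step : ∀ n, {v : Vtx two | lvl v ≤ n + 1}.ncard ≤
      {v : Vtx two | lvl v ≤ n}.ncard + 2 * 2 ^ ((n + 1) / 2) := by
    intro n
    have h : {v : Vtx two | lvl v ≤ n + 1} = {v | lvl v ≤ n} ∪ {v | lvl v = n + 1} := by
      ext v
      simp only [Set.mem_union, Set.mem_ofPred_eq]
      omega
    rw [h]
    exact (Set.ncard_union_le _ _).trans (Nat.add_le_add_left (level_ncard _) _)
  have h0 : {v : Vtx two | lvl v ≤ 0}.ncard ≤ 2 := by
    have h : {v : Vtx two | lvl v ≤ 0} = {v | lvl v = 0} := by
      ext v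
      simp only [Set.mem_ofPred_eq]
      omega
    rw [h]
    simpa using level_ncard 0
  induction n using Nat.strong_induction_on with
  | _ n ih =>
    match n with
    | 0 => exact h0.trans (by norm_num)
    | 1 =>
      have h1 : {v : Vtx two | lvl v ≤ 1}.ncard ≤ {v : Vtx two | lvl v ≤ 0}.ncard + 2 := step 0
      exact (h1.trans (Nat.add_le_add_right h0 2)).trans (by norm_num)
    | n + 2 =>
      have h1 := ih n (by omega)
      have h2 := step n
      have h3 := step (n + 1)
      have e1 : (n + 1 + 1) / 2 = n / 2 + 1 := by omega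
      have e2 : (n + 2) / 2 = n / 2 + 1 := by omega
      have e3 : 2 ^ ((n + 1) / 2) ≤ 2 ^ (n / 2 + 1) := Nat.pow_le_pow_right (by norm_num) (by omega)
      rw [e1] at h3
      rw [e2]
      rw [pow_succ] at e3 h3 ⊢
      change {v : Vtx two | lvl v ≤ n + 1 + 1}.ncard ≤ _
      omega

lemma sphere_ncard (v₀ : Vtx two) (r : ℕ) :
    {v : Vtx two | (G two).dist v₀ v = r}.ncard ≤ 8 * 2 ^ (lvl v₀) * 2 ^ (r / 2) := by
  have h : {v : Vtx two | (G two).dist v₀ v = r} ⊆ {v | lvl v ≤ r + lvl v₀} := by
    intro v hv
    have := lvl_le v v₀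
    rw [show (G two).dist v₀ v = r from hv] at this
    exact this
  refine (Set.ncard_le_ncard h (lvl_finite _)).trans ((ball_ncard _).trans ?_)
  rw [mul_assoc, ← pow_add]
  exact Nat.mul_le_mul_left _ (Nat.pow_le_pow_right (by norm_num) (by omega))

theorem density (v₀ : Vtx two) {C : Type u} (c : Vtx two → C) (b : C)
    (hc : ∀ σ : G two ≃g G two, (∀ v, c (σ v) = c v) → ∀ v, σ v = v) :
    ∑' r : ℕ, ({v : Vtx two | (G two).dist v₀ v = r ∧ c v ≠ b}.ncard : ℝ≥0∞) /
      ({v : Vtx two | (G two).dist v₀ v = r}.ncard : ℝ≥0∞) = ∞ := by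
  have h1 := weights v₀ c b hc
  have h2 : ∀ r, ({v : Vtx two | (G two).dist v₀ v = r ∧ c v ≠ b}.ncard : ℝ≥0∞) * wt r *
      (8 * 2 ^ (lvl v₀))⁻¹ ≤ ({v : Vtx two | (G two).dist v₀ v = r ∧ c v ≠ b}.ncard : ℝ≥0∞) /
      ({v : Vtx two | (G two).dist v₀ v = r}.ncard : ℝ≥0∞) := by
    intro r
    rw [div_eq_mul_inv, mul_assoc]
    apply mul_le_mul_right
    have h3 : ({v : Vtx two | (G two).dist v₀ v = r}.ncard : ℝ≥0∞) ≤
        8 * 2 ^ (lvl v₀) * 2 ^ (r / 2) := by exact_mod_cast sphere_ncard v₀ r
    unfold wt
    rw [mul_comm, ← ENNReal.mul_inv (Or.inl (by positivity))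
      (Or.inl (ENNReal.mul_ne_top (by norm_num) (ENNReal.pow_ne_top (by norm_num))))]
    exact ENNReal.inv_le_inv.2 h3
  refine top_le_iff.1 ?_
  calc (∞ : ℝ≥0∞) = ∞ * (8 * 2 ^ (lvl v₀))⁻¹ := by
        rw [ENNReal.top_mul]
        exact ENNReal.inv_ne_zero.2 (ENNReal.mul_ne_top (by norm_num)
          (ENNReal.pow_ne_top (by norm_num)))
    _ = ∑' r, ({v : Vtx two | (G two).dist v₀ v = r ∧ c v ≠ b}.ncard : ℝ≥0∞) * wt r *
      (8 * 2 ^ (lvl v₀))⁻¹ := by rw [ENNReal.tsum_mul_right, h1]
    _ ≤ _ := ENNReal.tsum_le_tsum h2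

lemma sqrt_pow_le (r : ℕ) : (√2 : ℝ) ^ r ≤ √2 * 2 ^ (r / 2) := by
  have h2 : (√2 : ℝ) ^ 2 = 2 := Real.sq_sqrt (by norm_num)
  have h1 : (1 : ℝ) ≤ √2 := by
    rw [Real.one_le_sqrt]; norm_num
  rcases Nat.even_or_odd' r with ⟨m, rfl | rfl⟩
  · rw [pow_mul, h2, show 2 * m / 2 = m by omega]
    have : (0 : ℝ) < 2 ^ m := by positivity
    nlinarith
  · rw [pow_succ, pow_mul, h2, show (2 * m + 1) / 2 = m by omega, mul_comm]

theorem sequences (v₀ : Vtx two) {C : Type u} (c : Vtx two → C) (b : C)
    (hc : ∀ σ : G two ≃g G two, (∀ v, c (σ v) = c v) → ∀ v, σ v = v) (a : ℕ → ℝ)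
    (ha : ∀ r, 0 ≤ a r) (hs : Summable (fun r => a r / √2 ^ r)) :
    {r : ℕ | a r < ({v : Vtx two | (G two).dist v₀ v = r ∧ c v ≠ b}.ncard : ℝ)}.Infinite := by
  intro hfin
  obtain ⟨R, hR⟩ := hfin.bddAbove
  have hred : ∀ r, R < r → ({v : Vtx two | (G two).dist v₀ v = r ∧ c v ≠ b}.ncard : ℝ) ≤ a r := by
    intro r hr
    by_contra hlt
    push Not at hlt
    have := hR (show r ∈ {r : ℕ | a r <
      ({v : Vtx two | (G two).dist v₀ v = r ∧ c v ≠ b}.ncard : ℝ)} from hlt)
    omega
  have h1 := weights v₀ c b hc
  set nb : ℕ → ℕ := fun r => {v : Vtx two | (G two).dist v₀ v = r ∧ c v ≠ b}.ncard with hnb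
  change ∑' r, ((nb r : ℕ) : ℝ≥0∞) * wt r = ∞ at h1
  have hwt : ∀ r, wt r = ENNReal.ofReal ((2 ^ (r / 2))⁻¹) := by
    intro r
    rw [wt, ENNReal.ofReal_inv_of_pos (by positivity), ENNReal.ofReal_pow (by norm_num)]
    norm_num
  have hterm : ∀ r, ((nb r : ℕ) : ℝ≥0∞) * wt r = ENNReal.ofReal ((nb r : ℝ) * (2 ^ (r / 2))⁻¹) := by
    intro r
    rw [hwt, ENNReal.ofReal_mul (Nat.cast_nonneg _), ENNReal.ofReal_natCast]
  rw [← Summable.sum_add_tsum_nat_add' (k := R + 1) ENNReal.summable] at h1
  refine (ENNReal.add_ne_top.2 ⟨?_, ?_⟩) h1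
  · rw [ENNReal.sum_ne_top]
    intro r _
    rw [hterm]
    exact ENNReal.ofReal_ne_top
  · have hs' : Summable (fun n => √2 * (a (n + (R + 1)) / √2 ^ (n + (R + 1)))) :=
      ((summable_nat_add_iff (R + 1)).2 hs).mul_left _
    refine ne_top_of_le_ne_top hs'.tsum_ofReal_ne_top (ENNReal.tsum_le_tsum ?_)
    intro n
    rw [hterm]
    apply ENNReal.ofReal_le_ofReal
    have h2 := hred (n + (R + 1)) (by omega)
    have h3 := sqrt_pow_le (n + (R + 1))
    have h4 : (0 : ℝ) < 2 ^ ((n + (R + 1)) / 2) := by positivity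
    have h5 : (0 : ℝ) < √2 ^ (n + (R + 1)) := by positivity
    have h6 : ((2 : ℝ) ^ ((n + (R + 1)) / 2))⁻¹ ≤ √2 / √2 ^ (n + (R + 1)) := by
      rw [inv_eq_one_div, div_le_div_iff₀ h4 h5]
      linarith
    calc (nb (n + (R + 1)) : ℝ) * (2 ^ ((n + (R + 1)) / 2))⁻¹ ≤
        a (n + (R + 1)) * (√2 / √2 ^ (n + (R + 1))) :=
          mul_le_mul h2 h6 (by positivity) (ha _)
      _ = _ := by ring

end Pool.Agent.Y387.SB
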