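import Mathlib

/-!
The graph of the earlier result `NoSphereBound` on MP_f836f4_co (two vertices, and two to the
number of children vertices, for every node of a rooted tree), copied.
-/

set_option autoImplicit false

namespace Pool.Agent.Y387.SB

/-- The nodes of depth `d` of the rooted tree in which every node of depth `k` has `D k`
children. -/
def Node (D : ℕ → ℕ) : ℕ → Type
  | 0 => Unit
  | d + 1 => Node D d × Fin (D d)

/-- The vertices of the graph: a root, two vertices for every tree node, and `2 ^ D d` vertices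
for every tree node of depth `d`. -/
inductive Vtx (D : ℕ → ℕ) : Type
  | root : Vtx D
  | P : (d : ℕ) → Node D d → ZMod 2 → Vtx D
  | Q : (d : ℕ) → Node D d → (Fin (D d) → ZMod 2) → Vtx D

open Vtx

/-- The upward edges. -/
inductive Up (D : ℕ → ℕ) : Vtx D → Vtx D → Prop
  | rootP (x : ZMod 2) : Up D root (P 0 () x)
  | PQ (d : ℕ) (i : Node D d) (ξ : Fin (D d) → ZMod 2) : Up D (P d i (∑ j, ξ j)) (Q d i ξ)
  | QP (d : ℕ) (i : Node D d) (ξ : Fin (D d) → ZMod 2) (j : Fin (D d)) :
      Up D (Q d i ξ) (P (d + 1) (i, j) (ξ j))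

/-- The level of a vertex. -/
def lvl {D : ℕ → ℕ} : Vtx D → ℕ
  | root => 0
  | P d _ _ => 2 * d + 1
  | Q d _ _ => 2 * d + 2

variable {D : ℕ → ℕ}

lemma Up.lvl_eq {u v : Vtx D} (h : Up D u v) : lvl v = lvl u + 1 := by
  cases h <;> simp [lvl] <;> ring

/-- The graph. -/
def G (D : ℕ → ℕ) : SimpleGraph (Vtx D) where
  Adj u v := Up D u v ∨ Up D v u
  symm := ⟨fun _ _ h => h.symm⟩
  loopless := ⟨fun v h => by
    rcases h with h | h
    · have := h.lvl_eq; omega
    · have := h.lvl_eq; omega⟩

lemma adj_lvl {u v : Vtx D} (h : (G D).Adj u v) : lvl v = lvl u + 1 ∨ lvl u = lvl v + 1 := by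
  rcases h with h | h
  · exact Or.inl h.lvl_eq
  · exact Or.inr h.lvl_eq

lemma exists_down (v : Vtx D) (hv : v ≠ root) : ∃ u, Up D u v := by
  match v with
  | root => exact absurd rfl hv
  | P 0 i x => exact ⟨root, Up.rootP x⟩
  | P (d + 1) (i, j) x => exact ⟨Q d i (fun _ => x), Up.QP d i (fun _ => x) j⟩
  | Q d i ξ => exact ⟨_, Up.PQ d i ξ⟩

lemma lvl_eq_zero {v : Vtx D} (h : lvl v = 0) : v = root := by
  cases v <;> simp [lvl] at h ⊢

lemma exists_walk (n : ℕ) : ∀ v : Vtx D, lvl v = n → ∃ w : (G D).Walk root v, w.length = n := by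
  induction n with
  | zero =>
    intro v hv
    obtain rfl := lvl_eq_zero hv
    exact ⟨SimpleGraph.Walk.nil, rfl⟩
  | succ n ih =>
    intro v hv
    have hne : v ≠ root := by
      rintro rfl
      simp [lvl] at hv
    obtain ⟨u, hu⟩ := exists_down v hne
    have h1 := hu.lvl_eq
    obtain ⟨w, hw⟩ := ih u (by omega)
    have h2 : (G D).Adj u v := Or.inl hu
    exact ⟨w.concat h2, by rw [SimpleGraph.Walk.length_concat, hw]⟩

lemma lvl_le_length {u v : Vtx D} (w : (G D).Walk u v) : lvl v ≤ lvl u + w.length := by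
  induction w with
  | nil => simp
  | cons h p ih =>
    have := adj_lvl h
    simp only [SimpleGraph.Walk.length_cons]
    omega

lemma connected : (G D).Connected := by
  have h : ∀ v, (G D).Reachable root v := fun v => by
    obtain ⟨w, _⟩ := exists_walk (lvl v) v rfl
    exact ⟨w⟩
  have : Nonempty (Vtx D) := ⟨root⟩
  exact ⟨fun u v => (h u).symm.trans (h v)⟩

lemma dist_root (v : Vtx D) : (G D).dist root v = lvl v := by
  obtain ⟨w, hw⟩ := exists_walk (lvl v) v rfl
  apply le_antisymm
  · exact hw ▸ SimpleGraph.dist_le w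
  · obtain ⟨w', hw'⟩ := (connected (D := D)).exists_walk_length_eq_dist root v
    have h1 := lvl_le_length w'
    have h2 : lvl (root : Vtx D) = 0 := rfl
    omega

instance nodeFinite (d : ℕ) : Finite (Node D d) := by
  induction d with
  | zero => exact inferInstanceAs (Finite Unit)
  | succ d ih =>
    have := ih
    exact inferInstanceAs (Finite (Node D d × Fin (D d)))

lemma lvl_finite (n : ℕ) : {v : Vtx D | lvl v ≤ n}.Finite := by
  have h1 : (⋃ d ∈ Set.Iic n, Set.range (fun p : Node D d × ZMod 2 => P d p.1 p.2)).Finite :=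
    Set.Finite.biUnion (Set.finite_Iic n) (fun d _ => Set.finite_range _)
  have h2 : (⋃ d ∈ Set.Iic n,
      Set.range (fun p : Node D d × (Fin (D d) → ZMod 2) => Q d p.1 p.2)).Finite :=
    Set.Finite.biUnion (Set.finite_Iic n) (fun d _ => Set.finite_range _)
  refine ((Set.finite_singleton (root : Vtx D)).union (h1.union h2)).subset ?_
  intro v hv
  match v with
  | root => left; rfl
  | P d i x =>
    right; left
    simp only [Set.mem_iUnion]
    refine ⟨d, ?_, (i, x), rfl⟩
    simp only [Set.mem_ofPred_eq, lvl] at hv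
    simp only [Set.mem_Iic]; omega
  | Q d i ξ =>
    right; right
    simp only [Set.mem_iUnion]
    refine ⟨d, ?_, (i, ξ), rfl⟩
    simp only [Set.mem_ofPred_eq, lvl] at hv
    simp only [Set.mem_Iic]; omega

lemma locallyFinite (v : Vtx D) : ((G D).neighborSet v).Finite := by
  refine (lvl_finite (D := D) (lvl v + 1)).subset ?_
  intro w hw
  have := adj_lvl (show (G D).Adj v w from hw)
  simp only [Set.mem_ofPred_eq]
  omega

lemma exists_sum_eq (hD : ∀ d, 2 ≤ D d) (d : ℕ) (x : ZMod 2) :
    ∃ ξ : Fin (D d) → ZMod 2, ∑ j, ξ j = x := by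
  have h0 : 0 < D d := by have := hD d; omega
  refine ⟨fun j => if j = ⟨0, h0⟩ then x else 0, ?_⟩
  simp

/-- A vertex is determined, inside its level, by any set of upward neighbours containing its
own. -/
lemma up_injective (hD : ∀ d, 2 ≤ D d) {u u' : Vtx D} (hl : lvl u = lvl u')
    (h : ∀ w, Up D u w → Up D u' w) : u = u' := by
  match u with
  | root => exact (lvl_eq_zero (by rw [← hl]; rfl)).symm
  | P d i x =>
    obtain ⟨ξ, hξ⟩ := exists_sum_eq hD d x
    subst hξ
    have h1 := h _ (Up.PQ d i ξ)
    cases h1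
    rfl
  | Q d i ξ =>
    have h0 : 0 < D d := by have := hD d; omega
    match u' with
    | root => simp [lvl] at hl
    | P d' i' x' => simp only [lvl] at hl; omega
    | Q d' i' ξ' =>
      have hdd : d = d' := by simp only [lvl] at hl; omega
      subst hdd
      have key : ∀ j, i' = i ∧ ξ' j = ξ j := by
        intro j
        have h1 := h _ (Up.QP d i ξ j)
        generalize hw : P (d + 1) (i, j) (ξ j) = w at h1
        cases h1 with
        | QP _ _ _ j' =>
          injection hw with h2 h3 h4
          have h5 : i = i' := congrArg Prod.fst h3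
          have h6 : j = j' := congrArg Prod.snd h3
          subst h6
          exact ⟨h5.symm, h4.symm⟩
      have e1 : i' = i := (key ⟨0, h0⟩).1
      have e2 : ξ' = ξ := funext fun j => (key j).2
      rw [e1, e2]

lemma infiniteMotion (hD : ∀ d, 2 ≤ D d) :
    ∀ σ : G D ≃g G D, (∃ v, σ v ≠ v) → {v | σ v ≠ v}.Infinite := by
  intro σ hσ hfin
  obtain ⟨v, hv⟩ := hσ
  obtain ⟨u, hu, hmax⟩ := hfin.exists_maximalFor lvl _ ⟨v, hv⟩
  have hu' : σ u ≠ u := hu
  have hmax' : ∀ w, σ w ≠ w → lvl w ≤ lvl u := by
    intro w hw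
    by_contra hlt
    have := hmax (show w ∈ {v | σ v ≠ v} from hw) (by omega)
    omega
  have hσu : σ (σ u) ≠ σ u := fun h => hu' (σ.injective h)
  have hle : lvl (σ u) ≤ lvl u := hmax' _ hσu
  have key : ∀ w, Up D u w → Up D (σ u) w := by
    intro w hw
    have h1 := hw.lvl_eq
    have h2 : σ w = w := by
      by_contra h3
      have := hmax' w h3
      omega
    have h3 : (G D).Adj (σ u) (σ w) := σ.map_rel_iff.2 (Or.inl hw)
    rw [h2] at h3
    rcases h3 with h3 | h3
    · exact h3
    · have := h3.lvl_eq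
      omega
  have hex : ∃ w, Up D u w := by
    match u with
    | root => exact ⟨_, Up.rootP 0⟩
    | P d i x =>
      obtain ⟨ξ, hξ⟩ := exists_sum_eq hD d x
      subst hξ
      exact ⟨_, Up.PQ d i ξ⟩
    | Q d i ξ =>
      exact ⟨_, Up.QP d i ξ ⟨0, by have := hD d; omega⟩⟩
  obtain ⟨w, hw⟩ := hex
  have h1 := hw.lvl_eq
  have h2 := (key w hw).lvl_eq
  exact hu' (up_injective hD (by omega) key).symm

/-- The automorphism attached to a labelling `g` of the tree nodes. -/
def act (g : (d : ℕ) → Node D d → ZMod 2) : Vtx D → Vtx D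
  | root => root
  | P d i x => P d i (x + g d i)
  | Q d i ξ => Q d i (fun j => ξ j + g (d + 1) (i, j))

lemma add_add_self (x y : ZMod 2) : x + y + y = x := by
  revert x y; decide

lemma act_act (g : (d : ℕ) → Node D d → ZMod 2) (v : Vtx D) : act g (act g v) = v := by
  match v with
  | root => rfl
  | P d i x => simp only [act, add_add_self]
  | Q d i ξ => simp only [act, add_add_self]

lemma act_up (g : (d : ℕ) → Node D d → ZMod 2)
    (hg : ∀ d (i : Node D d), g d i = ∑ j, g (d + 1) (i, j)) {u v : Vtx D} (h : Up D u v) :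
    Up D (act g u) (act g v) := by
  cases h with
  | rootP x => exact Up.rootP _
  | PQ d i ξ =>
    have h1 := Up.PQ d i (fun j => ξ j + g (d + 1) (i, j))
    rw [Finset.sum_add_distrib, ← hg] at h1
    exact h1
  | QP d i ξ j => exact Up.QP d i (fun j => ξ j + g (d + 1) (i, j)) j

/-- The automorphism attached to a labelling `g` of the tree nodes. -/
def actIso (g : (d : ℕ) → Node D d → ZMod 2)
    (hg : ∀ d (i : Node D d), g d i = ∑ j, g (d + 1) (i, j)) : G D ≃g G D where
  toFun := act g
  invFun := act g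
  left_inv := act_act g
  right_inv := act_act g
  map_rel_iff' := by
    have h1 : ∀ u v, (G D).Adj u v → (G D).Adj (act g u) (act g v) := by
      intro u v h
      rcases h with h | h
      · exact Or.inl (act_up g hg h)
      · exact Or.inr (act_up g hg h)
    intro u v
    constructor
    · intro h
      have := h1 _ _ h
      simpa only [Equiv.coe_fn_mk, act_act] using this
    · exact h1 u v

end Pool.Agent.Y387.SB
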