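import Pool.Agent.Y387.SB.Graph

/-!
A nontrivial automorphism which fixes all the vertices that do not have the colour `b`, if the
proportion of the nodes with such a vertex is summable over the levels of the tree.
-/

set_option autoImplicit false

namespace Pool.Agent.Y387.SB

open Vtx
open scoped ENNReal

universe u

variable {D : ℕ → ℕ}

/-- the nodes of a given depth are finitely many -/
noncomputable def nodeFintype : (d : ℕ) → Fintype (Node D d)
  | 0 => inferInstanceAs (Fintype Unit)
  | d + 1 => @instFintypeProd (Node D d) (Fin (D d)) (nodeFintype d) inferInstance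

noncomputable instance (d : ℕ) : Fintype (Node D d) := nodeFintype d

/-- the number of nodes of depth `d` -/
def num (D : ℕ → ℕ) : ℕ → ℕ
  | 0 => 1
  | d + 1 => num D d * D d

lemma sum_node (d : ℕ) (f : Node D (d + 1) → ℝ≥0∞) :
    ∑ i : Node D (d + 1), f i = ∑ i : Node D d, ∑ j : Fin (D d), f (i, j) :=
  Fintype.sum_prod_type f

lemma card_node (d : ℕ) : Fintype.card (Node D d) = num D d := by
  induction d with
  | zero => exact Fintype.card_unit
  | succ d ih =>
    have : Fintype.card (Node D (d + 1)) = Fintype.card (Node D d) * Fintype.card (Fin (D d)) :=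
      Fintype.card_prod _ _
    rw [this, ih, Fintype.card_fin]
    rfl

lemma num_ge (hD : ∀ d, 2 ≤ D d) (d : ℕ) : 2 ^ d ≤ num D d := by
  induction d with
  | zero => exact le_rfl
  | succ d ih =>
    rw [pow_succ]
    exact Nat.mul_le_mul ih (hD d)

/-- averages over the descendants at relative depth `n` -/
noncomputable def fr (F : (d : ℕ) → Node D d → ℝ≥0∞) : ℕ → (d : ℕ) → Node D d → ℝ≥0∞
  | 0, d, i => F d i
  | n + 1, d, i => (∑ j : Fin (D d), fr F n (d + 1) (i, j)) / (D d : ℝ≥0∞)

/-- averages over the nodes of a given depth -/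
noncomputable def avg (F : (d : ℕ) → Node D d → ℝ≥0∞) (d : ℕ) : ℝ≥0∞ :=
  (∑ i : Node D d, F d i) / (num D d : ℝ≥0∞)

lemma fr_avg (F : (d : ℕ) → Node D d → ℝ≥0∞) : ∀ n d,
    (∑ i : Node D d, fr F n d i) / (num D d : ℝ≥0∞) = avg F (d + n) := by
  intro n
  induction n with
  | zero => intro d; rfl
  | succ n ih =>
    intro d
    have h1 := ih (d + 1)
    rw [show d + (n + 1) = d + 1 + n by ring, ← h1, sum_node]
    have h2 : (num D (d + 1) : ℝ≥0∞) = (num D d : ℝ≥0∞) * (D d : ℝ≥0∞) := by
      rw [← Nat.cast_mul]; rfl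
    rw [h2, div_eq_mul_inv, div_eq_mul_inv, ENNReal.mul_inv
      (Or.inr (ENNReal.natCast_ne_top _)) (Or.inl (ENNReal.natCast_ne_top _))]
    have h3 : ∀ i : Node D d, fr F (n + 1) d i =
        (∑ j : Fin (D d), fr F n (d + 1) (i, j)) * (D d : ℝ≥0∞)⁻¹ := fun i => by
      rw [← div_eq_mul_inv]; rfl
    rw [Finset.sum_congr rfl (fun i _ => h3 i), ← Finset.sum_mul]
    ring

/-- the total weight of the descendants of a node -/
noncomputable def tot (F : (d : ℕ) → Node D d → ℝ≥0∞) (d : ℕ) (i : Node D d) : ℝ≥0∞ :=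
  ∑' n, fr F n d i

lemma tot_rec (F : (d : ℕ) → Node D d → ℝ≥0∞) (d : ℕ) (i : Node D d) :
    tot F d i = F d i + (∑ j : Fin (D d), tot F (d + 1) (i, j)) / (D d : ℝ≥0∞) := by
  unfold tot
  rw [tsum_eq_zero_add' ENNReal.summable]
  congr 1
  have h3 : ∀ n, fr F (n + 1) d i =
      (∑ j : Fin (D d), fr F n (d + 1) (i, j)) * (D d : ℝ≥0∞)⁻¹ := fun n => by
    rw [← div_eq_mul_inv]; rfl
  simp only [h3]
  rw [ENNReal.tsum_mul_right, div_eq_mul_inv,
    Summable.tsum_finsetSum (fun _ _ => ENNReal.summable)]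

lemma tot_avg (F : (d : ℕ) → Node D d → ℝ≥0∞) (d : ℕ) :
    (∑ i : Node D d, tot F d i) / (num D d : ℝ≥0∞) = ∑' n, avg F (d + n) := by
  unfold tot
  rw [← Summable.tsum_finsetSum (fun _ _ => ENNReal.summable), div_eq_mul_inv,
    ← ENNReal.tsum_mul_right]
  apply tsum_congr
  intro n
  rw [← fr_avg F n d, div_eq_mul_inv]

/-- a node with small total weight has a child with small total weight -/
lemma child_one (F : (d : ℕ) → Node D d → ℝ≥0∞) (hD : ∀ d, 2 ≤ D d) (d : ℕ) (i : Node D d)
    (h : tot F d i < 1) : ∃ j, tot F (d + 1) (i, j) < 1 := by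
  by_contra hcon
  push Not at hcon
  rw [tot_rec] at h
  have h0 : (D d : ℝ≥0∞) ≠ 0 := by
    have := hD d
    exact_mod_cast (by omega : D d ≠ 0)
  have h1 : (D d : ℝ≥0∞) ≤ ∑ j : Fin (D d), tot F (d + 1) (i, j) := by
    have := Finset.sum_le_sum (s := (Finset.univ : Finset (Fin (D d))))
      (f := fun _ => (1 : ℝ≥0∞)) (fun j _ => hcon j)
    simpa using this
  have h2 : (1 : ℝ≥0∞) ≤ (∑ j : Fin (D d), tot F (d + 1) (i, j)) / (D d : ℝ≥0∞) := by
    rw [ENNReal.le_div_iff_mul_le (Or.inl h0) (Or.inl (ENNReal.natCast_ne_top _)), one_mul]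
    exact h1
  exact absurd (lt_of_le_of_lt (h2.trans (le_add_left le_rfl)) h) (lt_irrefl _)

/-- a node with very small total weight has two children with small total weight -/
lemma child_two (F : (d : ℕ) → Node D d → ℝ≥0∞) (hD : ∀ d, 2 ≤ D d) (d : ℕ) (i : Node D d)
    (h : tot F d i < 1 / 2) :
    ∃ a b, a ≠ b ∧ tot F (d + 1) (i, a) < 1 ∧ tot F (d + 1) (i, b) < 1 := by
  classical
  by_contra hcon
  push Not at hcon
  rw [tot_rec] at h
  have h0 : (D d : ℝ≥0∞) ≠ 0 := by
    have := hD d
    exact_mod_cast (by omega : D d ≠ 0)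
  set A : Finset (Fin (D d)) := Finset.univ.filter (fun j => tot F (d + 1) (i, j) < 1) with hA
  have hA1 : A.card ≤ 1 := by
    rw [Finset.card_le_one]
    intro a ha b hb
    by_contra hab
    rw [hA, Finset.mem_filter] at ha hb
    exact absurd hb.2 (not_lt.2 (hcon a b hab ha.2))
  have h1 : ((Aᶜ.card : ℕ) : ℝ≥0∞) ≤ ∑ j : Fin (D d), tot F (d + 1) (i, j) := by
    calc ((Aᶜ.card : ℕ) : ℝ≥0∞) = ∑ j ∈ Aᶜ, (1 : ℝ≥0∞) := by simp
      _ ≤ ∑ j ∈ Aᶜ, tot F (d + 1) (i, j) := by
          apply Finset.sum_le_sum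
          intro j hj
          rw [Finset.mem_compl, hA, Finset.mem_filter] at hj
          push Not at hj
          exact hj (Finset.mem_univ _)
      _ ≤ _ := Finset.sum_le_sum_of_subset (Finset.subset_univ _)
  have h2 : D d ≤ 2 * Aᶜ.card := by
    have := Finset.card_add_card_compl A
    rw [Fintype.card_fin] at this
    have := hD d
    omega
  have h3 : (1 / 2 : ℝ≥0∞) ≤ (∑ j : Fin (D d), tot F (d + 1) (i, j)) / (D d : ℝ≥0∞) := by
    rw [ENNReal.le_div_iff_mul_le (Or.inl h0) (Or.inl (ENNReal.natCast_ne_top _))]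
    refine le_trans ?_ h1
    have h4 : (D d : ℝ≥0∞) ≤ 2 * ((Aᶜ.card : ℕ) : ℝ≥0∞) := by exact_mod_cast h2
    calc 1 / 2 * (D d : ℝ≥0∞) ≤ 1 / 2 * (2 * ((Aᶜ.card : ℕ) : ℝ≥0∞)) := by gcongr
      _ = ((Aᶜ.card : ℕ) : ℝ≥0∞) := by
          rw [← mul_assoc, one_div, ENNReal.inv_mul_cancel (by norm_num) (by norm_num), one_mul]
  exact absurd (lt_of_le_of_lt (h3.trans (le_add_left le_rfl)) h) (lt_irrefl _)

/-- a tree node is bad if one of its vertices does not have the colour `b` -/
def Bad {C : Type u} (c : Vtx D → C) (b : C) (d : ℕ) (i : Node D d) : Prop :=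
  (∃ x, c (P d i x) ≠ b) ∨ (∃ ξ, c (Q d i ξ) ≠ b)

open Classical in
/-- indicator of the bad nodes -/
noncomputable def ind {C : Type u} (c : Vtx D → C) (b : C) (d : ℕ) (i : Node D d) : ℝ≥0∞ :=
  if Bad c b d i then 1 else 0

lemma not_bad {C : Type u} {c : Vtx D → C} {b : C} {d : ℕ} {i : Node D d}
    (h : tot (ind c b) d i < 1) : ¬ Bad c b d i := by
  intro hb
  rw [tot_rec, ind, if_pos hb] at h
  exact absurd (lt_of_le_of_lt (le_add_right le_rfl) h) (lt_irrefl _)

theorem main (hD : ∀ d, 2 ≤ D d) {C : Type u} (c : Vtx D → C) (b : C)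
    (hsum : ∑' d, avg (ind c b) d ≠ ∞) :
    ∃ σ : G D ≃g G D, (∀ v, c (σ v) = c v) ∧ ∃ v, σ v ≠ v := by
  classical
  -- a node with very small weight
  obtain ⟨R, i₀, hi₀⟩ : ∃ R, ∃ i : Node D R, tot (ind c b) R i < 1 / 2 := by
    have h1 := ENNReal.tendsto_sum_nat_add (avg (ind c b)) hsum
    have h2 : ∀ᶠ k in Filter.atTop, ∑' n, avg (ind c b) (n + k) < 1 / 2 :=
      h1.eventually (gt_mem_nhds (by simp))
    obtain ⟨R, hR⟩ := h2.exists
    refine ⟨R, ?_⟩
    by_contra hcon
    push Not at hcon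
    have h3 := tot_avg (ind c b) R
    have h4 : ∑' n, avg (ind c b) (R + n) < 1 / 2 := by
      have : (fun n => avg (ind c b) (R + n)) = fun n => avg (ind c b) (n + R) := by
        funext n; rw [add_comm]
      rw [this]; exact hR
    rw [← h3] at h4
    have h0 : (num D R : ℝ≥0∞) ≠ 0 := by
      have := num_ge hD R
      have : 0 < 2 ^ R := by positivity
      exact_mod_cast (by omega : num D R ≠ 0)
    have h5 : (1 / 2 : ℝ≥0∞) ≤ (∑ i : Node D R, tot (ind c b) R i) / (num D R : ℝ≥0∞) := by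
      rw [ENNReal.le_div_iff_mul_le (Or.inl h0) (Or.inl (ENNReal.natCast_ne_top _))]
      have h6 := Finset.sum_le_sum (s := (Finset.univ : Finset (Node D R)))
        (f := fun _ => (1 / 2 : ℝ≥0∞)) (fun i _ => hcon i)
      rw [Finset.sum_const, Finset.card_univ, card_node, nsmul_eq_mul] at h6
      rw [mul_comm]
      exact h6
    exact absurd (lt_of_le_of_lt h5 h4) (lt_irrefl _)
  -- choices
  have hs : ∀ d (i : Node D d), ∃ j, tot (ind c b) d i < 1 → tot (ind c b) (d + 1) (i, j) < 1 := by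
    intro d i
    by_cases h : tot (ind c b) d i < 1
    · obtain ⟨j, hj⟩ := child_one _ hD d i h
      exact ⟨j, fun _ => hj⟩
    · exact ⟨⟨0, by have := hD d; omega⟩, fun h' => absurd h' h⟩
  choose s hs using hs
  have hab : ∀ d (i : Node D d), ∃ a a', a ≠ a' ∧ (tot (ind c b) d i < 1 / 2 →
      tot (ind c b) (d + 1) (i, a) < 1 ∧ tot (ind c b) (d + 1) (i, a') < 1) := by
    intro d i
    by_cases h : tot (ind c b) d i < 1 / 2
    · obtain ⟨a, a', h1, h2, h3⟩ := child_two _ hD d i h
      exact ⟨a, a', h1, fun _ => ⟨h2, h3⟩⟩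
    · refine ⟨⟨0, by have := hD d; omega⟩, ⟨1, by have := hD d; omega⟩, ?_, fun h' => absurd h' h⟩
      simp
  choose a a' hne hgood using hab
  -- the labelling
  let g : (d : ℕ) → Node D d → ZMod 2 := fun d => Nat.rec (fun _ => 0)
    (fun d gd ij => if d = R then
      (if tot (ind c b) d ij.1 < 1 / 2 then
        (if ij.2 = a d ij.1 ∨ ij.2 = a' d ij.1 then 1 else 0) else 0)
      else (if ij.2 = s d ij.1 then gd ij.1 else 0)) d
  have g0 : ∀ i, g 0 i = 0 := fun i => rfl
  have gs : ∀ d (i : Node D d) (j : Fin (D d)), g (d + 1) (i, j) =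
      if d = R then
      (if tot (ind c b) d i < 1 / 2 then (if j = a d i ∨ j = a' d i then 1 else 0) else 0)
      else (if j = s d i then g d i else 0) := fun d i j => rfl
  have gzero : ∀ d, d ≤ R → ∀ i, g d i = 0 := by
    intro d
    induction d with
    | zero => intro _ i; exact g0 i
    | succ d ih =>
      rintro hd ⟨i, j⟩
      rw [gs, if_neg (by omega), ih (by omega)]
      simp
  have gfine : ∀ d (i : Node D d), g d i ≠ 0 → tot (ind c b) d i < 1 := by
    intro d
    induction d with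
    | zero => intro i h; exact absurd (g0 i) h
    | succ d ih =>
      rintro ⟨i, j⟩ h
      rw [gs] at h
      split_ifs at h with h1 h2 h3 h4
      · rcases h3 with h3 | h3
        · rw [h3]; exact (hgood d i h2).1
        · rw [h3]; exact (hgood d i h2).2
      · exact absurd rfl h
      · exact absurd rfl h
      · rw [h4]; exact hs d i (ih i h)
      · exact absurd rfl h
  have gbad : ∀ d (i : Node D d), Bad c b d i → g d i = 0 := by
    intro d i hb
    by_contra h
    exact not_bad (gfine d i h) hb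
  have gbad' : ∀ d (i : Node D d), Bad c b d i → ∀ j, g (d + 1) (i, j) = 0 := by
    intro d i hb j
    rw [gs]
    split_ifs with h1 h2 h3 h4
    · exact absurd hb (not_bad (h2.trans (by simp)))
    · rfl
    · rfl
    · exact gbad d i hb
    · rfl
  have gsum : ∀ d (i : Node D d), g d i = ∑ j, g (d + 1) (i, j) := by
    intro d i
    simp only [gs]
    by_cases h1 : d = R
    · rw [gzero d (by omega) i]
      simp only [if_pos h1]
      by_cases h2 : tot (ind c b) d i < 1 / 2
      · simp only [if_pos h2]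
        have h3 : ∀ j : Fin (D d), (if j = a d i ∨ j = a' d i then (1 : ZMod 2) else 0) =
            (if j = a d i then 1 else 0) + (if j = a' d i then 1 else 0) := by
          intro j
          by_cases h4 : j = a d i
          · simp [h4, hne d i]
          · simp [h4]
        simp only [h3, Finset.sum_add_distrib, Finset.sum_ite_eq', Finset.mem_univ, if_true]
        decide
      · simp only [if_neg h2, Finset.sum_const_zero]
    · simp [if_neg h1]
  refine ⟨actIso g gsum, ?_, P (R + 1) (i₀, a R i₀) 0, ?_⟩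
  · have hfix : ∀ v, c v ≠ b → act g v = v := by
      intro v hv
      match v with
      | root => rfl
      | P d i x =>
        have : g d i = 0 := gbad d i (Or.inl ⟨x, hv⟩)
        simp [act, this]
      | Q d i ξ =>
        have : ∀ j, g (d + 1) (i, j) = 0 := gbad' d i (Or.inr ⟨ξ, hv⟩)
        simp [act, this]
    intro v
    change c (act g v) = c v
    by_cases h1 : c v = b
    · by_cases h2 : c (act g v) = b
      · rw [h1, h2]
      · have h3 := hfix _ h2
        rw [act_act] at h3
        rw [← h3] at h2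
        exact absurd h1 h2
    · rw [hfix v h1]
  · change act g (P (R + 1) (i₀, a R i₀) 0) ≠ _
    have h1 : g (R + 1) (i₀, a R i₀) = 1 := by
      rw [gs, if_pos rfl, if_pos hi₀, if_pos (Or.inl rfl)]
    intro h
    change P (R + 1) (i₀, a R i₀) (0 + g (R + 1) (i₀, a R i₀)) = _ at h
    rw [h1] at h
    injection h with h2 h3 h4
    exact absurd h4 (by decide)

end Pool.Agent.Y387.SB
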